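import Pool.Agent.H63.WT.TA

set_option autoImplicit false

open Polynomial Matrix Pool.Agent.H63.WT

namespace Pool.Agent.H16.WT

theorem pf_LAE : T_LAE := by
  intro F E _ _ _ hLA hfin
  obtain ⟨h2, hL⟩ := hLA
  refine ⟨?_, ?_⟩
  · intro h0
    apply h2
    apply (algebraMap F E).injective
    rw [map_ofNat, map_zero, h0]
  · intro E' _ _ hfin'
    let _ : Algebra F E' := ((algebraMap E E').comp (algebraMap F E)).toAlgebra
    have _ : IsScalarTower F E E' := IsScalarTower.of_algebraMap_eq (fun _ => rfl)
    exact hL E' (Module.Finite.trans E E')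

end Pool.Agent.H16.WT
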