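import Pool.Agent.H63.WT.TA

set_option autoImplicit false

open Polynomial Matrix Pool.Agent.H63.WT

namespace Pool.Agent.H16.WT

theorem pf_LAL (hNIX : Pool.Agent.H32.QC.T_NIX) (hCAR : Pool.Agent.H32.QC.T_CAR) : T_LAL := by
  intro F _ _ _ _
  refine ⟨two_ne_zero, ?_⟩
  intro E _ _ hfin
  have halg : Algebra.IsAlgebraic F E := Algebra.IsAlgebraic.of_finite F E
  let nL : NontriviallyNormedField E := spectralNorm.nontriviallyNormedField F E
  have uL : IsUltrametricDist E :=
    IsUltrametricDist.isUltrametricDist_of_isNonarchimedean_norm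
      (isNonarchimedean_spectralNorm (K := F) (L := E))
  let aL : NormedAlgebra F E := spectralNorm.normedAlgebra F E
  have pL : ProperSpace E := FiniteDimensional.proper F E
  have cL : CharZero E := charZero_of_injective_algebraMap (algebraMap F E).injective
  refine ⟨hNIX E, ?_⟩
  obtain ⟨h1, h2⟩ := hCAR E
  have h3 : 2 < Pool.Agent.H32.QC.nsq E := by omega
  exact h3

end Pool.Agent.H16.WT
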