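import Pool.Agent.H63.WT.TB

set_option autoImplicit false

open Polynomial Matrix Pool.Agent.H63.WT

namespace Pool.Agent.H16.WT

theorem sqM_mul {F : Type} [Field F] {p q M : F[X]} (h : IsCoprime p q) (hp : SqM p M)
    (hq : SqM q M) : SqM (p * q) M := by
  obtain ⟨s, hs⟩ := hp
  obtain ⟨s', hs'⟩ := hq
  obtain ⟨a, b, hab⟩ := h
  refine ⟨s + (s' - s) * (a * p), ?_⟩
  apply IsCoprime.mul_dvd ⟨a, b, hab⟩
  · have h1 : M - (s + (s' - s) * (a * p)) ^ 2 = (M - s ^ 2)
        + p * (-(2 * s * (s' - s) * a) - (s' - s) ^ 2 * a ^ 2 * p) := by ring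
    rw [h1]
    exact dvd_add hs ⟨_, rfl⟩
  · have h2 : s + (s' - s) * (a * p) = s' - (s' - s) * (b * q) := by
      linear_combination (s' - s) * hab
    have h1 : M - (s + (s' - s) * (a * p)) ^ 2 = (M - s' ^ 2)
        + q * (2 * s' * (s' - s) * b - (s' - s) ^ 2 * b ^ 2 * q) := by
      rw [h2]; ring
    rw [h1]
    exact dvd_add hs' ⟨_, rfl⟩

theorem pf_RAM : T_RAM := by
  intro F _ _ A M hA hsep hc
  clear hc
  obtain ⟨n, hn⟩ : ∃ n, A.natDegree = n := ⟨_, rfl⟩
  induction n using Nat.strong_induction_on generalizing A with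
  | _ n ih =>
    by_cases hu : IsUnit A
    · have hA1 : A = 1 := hA.eq_one_of_isUnit hu
      refine ⟨1, 1, monic_one, monic_one, by rw [hA1, mul_one], ⟨0, one_dvd _⟩, ?_⟩
      intro p hp hdvd
      exact absurd (isUnit_of_dvd_one hdvd) hp.not_isUnit
    · obtain ⟨p, hpm, hpi, A', hA'⟩ := Polynomial.exists_monic_irreducible_factor A hu
      have hA'm : A'.Monic := by
        rw [hA'] at hA
        exact hpm.of_mul_monic_left hA
      have hsep2 : (p * A').Separable := by rw [← hA']; exact hsep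
      have hcop : IsCoprime p A' := hsep2.isCoprime
      have hdeg : A'.natDegree < n := by
        rw [← hn, hA', hpm.natDegree_mul hA'm]
        have := hpi.natDegree_pos
        omega
      obtain ⟨R, U, hR, hU, hRU, hSU, hRn⟩ := ih A'.natDegree hdeg A' hA'm hsep2.of_mul_right rfl
      by_cases hs : SqM p M
      · refine ⟨R, p * U, hR, hpm.mul hU, by rw [hA', hRU]; ring, ?_, hRn⟩
        apply sqM_mul _ hs hSU
        rw [hRU] at hcop
        exact hcop.of_mul_right_right
      · refine ⟨p * R, U, hpm.mul hR, hU, by rw [hA', hRU]; ring, hSU, ?_⟩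
        intro q hq hdvd hqs
        rcases hq.prime.dvd_or_dvd hdvd with h1 | h1
        · have h2 : Associated q p := hq.associated_of_dvd hpi h1
          obtain ⟨s, hs'⟩ := hqs
          exact hs ⟨s, h2.symm.dvd.trans hs'⟩
        · exact hRn q hq h1 hqs

end Pool.Agent.H16.WT
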