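import Pool.Agent.H63.WT.TB

set_option autoImplicit false

open Polynomial Matrix Pool.Agent.H63.WT

namespace Pool.Agent.H16.WT

theorem pf_RED : T_RED := by
  intro F _ _ m M0 T hm hM0 hsep hdeg hT hsq h3
  obtain ⟨s, hs⟩ := hsq
  obtain ⟨Y, hY⟩ : ∃ Y : F[X], Y = s %ₘ T := ⟨_, rfl⟩
  have hT1 : T ≠ 1 := by
    rintro rfl
    rw [natDegree_one] at h3
    omega
  have hYdeg : Y.natDegree < T.natDegree := by
    rw [hY]; exact natDegree_modByMonic_lt s hT hT1
  have hdvd : T ∣ Y ^ 2 - C m * M0 := by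
    have h1 : s = Y + T * (s /ₘ T) := by rw [hY]; exact (modByMonic_add_div s T).symm
    have h2 : Y ^ 2 - C m * M0 = -(C m * M0 - s ^ 2)
        - T * (2 * Y * (s /ₘ T) + T * (s /ₘ T) ^ 2) := by
      have h4 : s ^ 2 = (Y + T * (s /ₘ T)) ^ 2 := by rw [← h1]
      rw [h4]; ring
    rw [h2]
    exact dvd_sub (dvd_neg.mpr hs) ⟨_, rfl⟩
  have hdm : (C m * M0).natDegree = 4 := by
    rw [natDegree_C_mul hm, hdeg]
  have hQ0 : Y ^ 2 - C m * M0 ≠ 0 := by
    intro h0
    have h1 : Y ^ 2 = C m * M0 := sub_eq_zero.mp h0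
    have h2 : (Y ^ 2).natDegree = 4 := by rw [h1, hdm]
    rw [natDegree_pow] at h2
    have h4 : M0 = Y * Y * C m⁻¹ := by
      have h5 : C m * C m⁻¹ = (1 : F[X]) := by rw [← C_mul, mul_inv_cancel₀ hm, C_1]
      calc M0 = C m * M0 * C m⁻¹ := by
            linear_combination (-M0) * h5
        _ = Y * Y * C m⁻¹ := by rw [← h1]; ring
    have h6 : IsUnit Y := hsep.squarefree Y ⟨C m⁻¹, h4⟩
    have h7 := natDegree_eq_zero_of_isUnit h6
    omega
  obtain ⟨B', hB'⟩ := hdvd
  have hB0 : B' ≠ 0 := by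
    rintro rfl
    exact hQ0 (by rw [hB', mul_zero])
  have hl : B'.leadingCoeff ≠ 0 := leadingCoeff_ne_zero.mpr hB0
  have hBdeg : (C B'.leadingCoeff⁻¹ * B').natDegree = B'.natDegree :=
    natDegree_C_mul (inv_ne_zero hl)
  have hQdeg : (Y ^ 2 - C m * M0).natDegree = T.natDegree + B'.natDegree := by
    rw [hB', natDegree_mul hT.ne_zero hB0]
  refine ⟨Y, C B'.leadingCoeff⁻¹ * B', B'.leadingCoeff, hl, ?_, ?_, ?_, ?_⟩
  · rw [Monic, leadingCoeff_mul, leadingCoeff_C, inv_mul_cancel₀ hl]
  · rw [hBdeg]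
    have h1 : (Y ^ 2 - C m * M0).natDegree ≤ max (Y ^ 2).natDegree (C m * M0).natDegree :=
      natDegree_sub_le _ _
    rw [hQdeg, hdm, natDegree_pow] at h1
    omega
  · rw [hB']
    have h5 : C B'.leadingCoeff * C B'.leadingCoeff⁻¹ = (1 : F[X]) := by
      rw [← C_mul, mul_inv_cancel₀ hl, C_1]
    linear_combination (-(T * B')) * h5
  · intro hns
    rw [hBdeg, ← hQdeg]
    rcases lt_trichotomy Y.natDegree 2 with h | h | h
    · have h1 : (Y ^ 2 - C m * M0).natDegree = 4 := by
        rw [natDegree_sub_eq_right_of_natDegree_lt, hdm]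
        rw [hdm, natDegree_pow]
        omega
      rw [h1]
      decide
    · have h1 : (Y ^ 2 - C m * M0).natDegree = 4 := by
        apply le_antisymm
        · refine (natDegree_sub_le _ _).trans ?_
          rw [hdm, natDegree_pow, h]
          decide
        · apply le_natDegree_of_ne_zero
          rw [coeff_sub, coeff_C_mul]
          have h2 : (Y ^ 2).coeff 4 = Y.leadingCoeff ^ 2 := by
            have h4 := coeff_pow_mul_natDegree Y 2
            rw [h] at h4
            exact h4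
          have h5 : M0.coeff 4 = 1 := by
            rw [← hdeg]; exact hM0
          rw [h2, h5, mul_one]
          intro h0
          apply hns
          exact ⟨Y.leadingCoeff, by rw [← sq]; exact (sub_eq_zero.mp h0).symm⟩
      rw [h1]
      decide
    · have h1 : (Y ^ 2 - C m * M0).natDegree = 2 * Y.natDegree := by
        rw [natDegree_sub_eq_left_of_natDegree_lt, natDegree_pow]
        rw [hdm, natDegree_pow]
        omega
      rw [h1]
      exact even_two_mul _

end Pool.Agent.H16.WT
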